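import Pool.Agent.H6.Stb2

/-! Strong tree-breadth is not bounded by a constant multiple of tree-breadth. -/

namespace Pool.Agent.Results.MP_3ffbec_co.Q1

open Pool.Agent.H6.Stb

theorem result (c : ℝ) : ∃ (V : Type) (_ : Finite V) (G : SimpleGraph V),
    G.Connected ∧ tb G ≤ 3 ∧ c * (tb G : ℝ) < (stb G : ℝ) := by
  obtain ⟨R, hR⟩ := exists_nat_ge (3 * |c|)
  refine ⟨_, inferInstance, GG (2 * R + 1), GG_conn, tb_le, ?_⟩
  have h1 : (tb (GG (2 * R + 1)) : ℝ) ≤ 3 := by exact_mod_cast tb_le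
  have h2 : (R : ℝ) < stb (GG (2 * R + 1)) := by exact_mod_cast stb_gt R
  have h3 : (0 : ℝ) ≤ tb (GG (2 * R + 1)) := Nat.cast_nonneg _
  have := le_abs_self c
  have := abs_nonneg c
  nlinarith

end Pool.Agent.Results.MP_3ffbec_co.Q1
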